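import Pool.Graph.R_seed8.Results.MP_1fec7a_co.DisproofQ1

/-!
# The Euler count for the incidence graph of a linear hypergraph

`lemB2_of`: the number of the hyperedges with at least two elements is at most `3 n + 6 g`, if every
face of every rotation passes through at least three darts (`hB1`).
-/

set_option autoImplicit false

namespace Pool.Agent.H25.RG

open SimpleGraph
open Pool.Agent.Results.MP_1fec7a_co.DisproofQ1

/-- the number of the incidences with the hyperedges which satisfy `P` -/
theorem card_inc {V ι : Type} [Fintype V] [Fintype ι] (E : ι → Finset V) (P : ι → Prop)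
    [DecidablePred P] :
    Nat.card {p : V × ι // p.1 ∈ E p.2 ∧ P p.2} = ∑ i, if P i then (E i).card else 0 := by
  classical
  rw [Nat.card_eq_fintype_card, Fintype.card_subtype, Finset.card_filter, Fintype.sum_prod_type_right]
  apply Finset.sum_congr rfl
  intro i _
  by_cases h : P i
  · simp [h]
  · simp [h]

/-- a vertex which can be reached from an isolated vertex is that vertex -/
theorem eq_of_reachable {W : Type} {G : SimpleGraph W} {a b : W} (h : G.Reachable a b)
    (ha : ∀ w, ¬ G.Adj a w) : a = b := by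
  obtain ⟨p⟩ := h
  cases p with
  | nil => rfl
  | cons h' _ => exact absurd h' (ha _)

theorem lemB2_of {V ι : Type} [Finite V] [Finite ι] (E : ι → Finset V)
    (h2 : ∀ v, ∃ i, v ∈ E i) (g : ℕ) (h : EmbedsInGenus (incidence E) g)
    (hB1 : ∀ R : Rotation (incidence E),
      3 * Nat.card (Quotient (Equiv.Perm.SameCycle.setoid R.face)) ≤
        Nat.card {p : V × ι // p.1 ∈ E p.2 ∧ 2 ≤ (E p.2).card}) :
    Nat.card {i : ι // 2 ≤ (E i).card} ≤ 3 * Nat.card V + 6 * g := by
  classical
  have : Fintype V := Fintype.ofFinite V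
  have : Fintype ι := Fintype.ofFinite ι
  obtain ⟨R, hR⟩ := h
  have hF := hB1 R
  unfold Rotation.faces at hR
  -- the isolated vertices
  have hadj : ∀ i, E i = ∅ → ∀ w, ¬ (incidence E).Adj (Sum.inr i) w := by
    intro i hi w hw
    rcases hw with ⟨v, j, hv, h3, -⟩ | ⟨v, j, hv, h3, -⟩
    · cases h3
    · cases h3
      rw [hi] at hv
      exact absurd hv (Finset.notMem_empty _)
  have hiso : Nat.card {w : V ⊕ ι // ∀ w', ¬ (incidence E).Adj w w'} ≤
      Nat.card {i : ι // E i = ∅} := by
    apply Nat.card_le_card_of_surjective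
      (fun i : {i : ι // E i = ∅} =>
        (⟨Sum.inr i.1, hadj i.1 i.2⟩ : {w : V ⊕ ι // ∀ w', ¬ (incidence E).Adj w w'}))
    rintro ⟨w | i, hw⟩
    · obtain ⟨i, hi⟩ := h2 w
      exact absurd (adj_inc hi) (hw _)
    · have hi : E i = ∅ := by
        rw [Finset.eq_empty_iff_forall_notMem]
        intro v hv
        exact hw _ (adj_inc hv).symm
      exact ⟨⟨i, hi⟩, rfl⟩
  -- the components
  have hc : Nat.card {i : ι // E i = ∅} ≤ Nat.card (incidence E).ConnectedComponent := by
    have : Finite (incidence E).ConnectedComponent := inferInstance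
    apply Nat.card_le_card_of_injective
      (fun i : {i : ι // E i = ∅} => (incidence E).connectedComponentMk (Sum.inr i.1))
    intro i j hij
    have h3 := eq_of_reachable (ConnectedComponent.exact hij) (hadj i.1 i.2)
    exact Subtype.ext (Sum.inr_injective h3)
  -- the edges
  have hE : Nat.card {p : V × ι // p.1 ∈ E p.2 ∧ True} ≤ Nat.card (incidence E).edgeSet := by
    have : Finite (incidence E).edgeSet := inferInstance
    apply Nat.card_le_card_of_injective
      (fun p : {p : V × ι // p.1 ∈ E p.2 ∧ True} =>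
        (⟨s(Sum.inl p.1.1, Sum.inr p.1.2), by
          rw [mem_edgeSet]
          exact adj_inc p.2.1⟩ : (incidence E).edgeSet))
    rintro ⟨⟨v, i⟩, hp⟩ ⟨⟨v', i'⟩, hp'⟩ h3
    simp only [Subtype.mk.injEq] at h3
    rw [Sym2.eq_iff] at h3
    rcases h3 with ⟨h3, h4⟩ | ⟨h3, h4⟩
    · cases h3
      cases h4
      rfl
    · cases h3
  -- the sums
  rw [card_inc E (fun _ => True)] at hE
  rw [card_inc E (fun i => 2 ≤ (E i).card)] at hF
  have hm : Nat.card {i : ι // 2 ≤ (E i).card} = ∑ i, if 2 ≤ (E i).card then 1 else 0 := by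
    rw [Nat.card_eq_fintype_card, Fintype.card_subtype, Finset.card_filter]
  have h0 : Nat.card {i : ι // E i = ∅} = ∑ i, if E i = ∅ then 1 else 0 := by
    rw [Nat.card_eq_fintype_card, Fintype.card_subtype, Finset.card_filter]
  have hι : Nat.card (V ⊕ ι) = Nat.card V + ∑ _i : ι, 1 := by
    rw [Nat.card_sum]
    simp
  have k1 : (∑ i, if 2 ≤ (E i).card then (E i).card else 0) + ∑ _i : ι, 1 ≤
      (∑ i, if True then (E i).card else 0) + (∑ i, if 2 ≤ (E i).card then 1 else 0) +
        ∑ i, if E i = ∅ then 1 else 0 := by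
    rw [← Finset.sum_add_distrib, ← Finset.sum_add_distrib, ← Finset.sum_add_distrib]
    apply Finset.sum_le_sum
    intro i _
    rw [if_pos trivial]
    by_cases h3 : E i = ∅
    · simp [h3]
    · have h4 : 0 < (E i).card := Finset.card_pos.2 (Finset.nonempty_iff_ne_empty.2 h3)
      by_cases h5 : 2 ≤ (E i).card
      · rw [if_pos h5, if_pos h5, if_neg h3]
      · rw [if_neg h5, if_neg h5, if_neg h3]
        omega
  have k2 : 2 * (∑ i, if 2 ≤ (E i).card then 1 else 0) ≤
      ∑ i, if 2 ≤ (E i).card then (E i).card else 0 := by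
    rw [Finset.mul_sum]
    apply Finset.sum_le_sum
    intro i _
    split_ifs with h3
    · omega
    · omega
  rw [hm]
  rw [hι] at hR
  omega

end Pool.Agent.H25.RG
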